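import Pool.Agent.H56R3.BSD.Mot

/-!
# The order of vanishing at the centre and partial Euler products, for motives of odd weight

Let `X` be smooth and projective over `ℚ` and let `t p m` be the trace of `Frob_p^m` on
`H^(2 i + 1)(X)`; the central point is `s = i + 1`. The bound of Deligne holds for these numbers and
the set `S` of the primes of good reduction (the first case of `Admissible`). Let `G` be the
`L`-function, assumed to continue to a neighbourhood of the real segment `[i + 1, i + 3/2]`,
meromorphically at `s = i + 1`, and let `k` be its order at `s = i + 1`. Let `EP(x)` be the product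
over `p ∈ S`, `p ≤ x`, of the inverse Euler factors at `s = i + 1`, and let `LA` be the logarithmic
averages of `log EP(n) - κ log log n`.

1. Suppose that the continuation is analytic on `(i + 1, i + 3/2]`. If `LA` is bounded above, or if
`EP(x) = O((log x)^κ)`, then `k ≤ κ` and `G` continues analytically and without zeros to
`Re s > i + 1`.

2. Suppose that `1/G` is analytic on `(i + 1, i + 3/2]`. If `LA` is bounded below, or if
`(log x)^κ = O(EP(x))`, then `κ ≤ k` and `G` continues analytically and without zeros to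
`Re s > i + 1`.

In the second case of `Admissible` no bound is assumed: `t p m` is then the trace on a motive of
weight `2 i + 1` in the tensor category generated by the Tate motive and the `H¹` of hyperelliptic
curves `C_j : y² = f_j(x)` over `ℚ`. The trace of such a motive is a polynomial `P` in `p^m` and in
the traces of `Frob_p^((k + 1) m)` on `H¹(C_j)`, homogeneous for the weights `2` and `k + 1`. For
example `(x₀³ + 3 x₀ x₁ + 2 x₂) / 6` gives `Sym³ H¹(C)`, `(x₀³ - 3 x₀ x₁ + 2 x₂) / 6` gives
`Λ³ H¹(C)`, and `x₀ y₀ z₀` gives `H¹(C₁) ⊗ H¹(C₂) ⊗ H¹(C₃)`.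

The square root bound for the numbers of points of the curves over finite fields is from the starting
file `Pool/Agent/H341R2/CurveFacts.lean`.
-/

set_option autoImplicit false

open Filter

namespace Pool.Agent.Results.MP_29b22a_nt.CentralEulerProducts

open Pool.Agent.H56R3.BSD.Mot

/-- See the introduction. -/
theorem result (S : Nat.Primes → Prop) (t : Nat.Primes → ℕ → ℝ) (i : ℕ) (h : Admissible S t i)
    (G : ℂ → ℂ) (hG : IsL S t i G) (hmer : MeromorphicAt G (i + 1))
    (k : ℤ) (hk : meromorphicOrderAt G (i + 1) = k) :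
    ((∀ σ : ℝ, (i : ℝ) + 1 < σ → σ ≤ (i : ℝ) + 3 / 2 → AnalyticAt ℂ G σ) → ∀ κ C : ℝ,
      ((∀ᶠ x : ℕ in atTop, LA S t i κ x ≤ C) ∨
        ∀ᶠ x : ℕ in atTop, EP S t i x ≤ C * Real.log x ^ κ) →
      (k : ℝ) ≤ κ ∧ ZeroFree i G) ∧
    ((∀ σ : ℝ, (i : ℝ) + 1 < σ → σ ≤ (i : ℝ) + 3 / 2 → AnalyticAt ℂ (fun s => (G s)⁻¹) σ) →
      ∀ κ C : ℝ, 0 < C →
      ((∀ᶠ x : ℕ in atTop, -C ≤ LA S t i κ x) ∨
        ∀ᶠ x : ℕ in atTop, C * Real.log x ^ κ ≤ EP S t i x) →
      κ ≤ k ∧ ZeroFree i G) := by
  obtain ⟨B, hB⟩ := h.bound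
  exact general S t i B hB G hG hmer k hk

end Pool.Agent.Results.MP_29b22a_nt.CentralEulerProducts
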