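import Pool.Agent.H230R4.BSD.TCn
import Pool.Agent.H230R4.BSD.TMul

/-!
# The central leading coefficient of `L(H^(2j+1)(C^n), s)` as a limit point of Euler products

Let `C : y² = f(x)` be a hyperelliptic curve over `ℚ`, `f ∈ ℤ[x]`, and `X = C^n`.  Suppose that
`F(s) = L(H^(2j+1)(X), s + j)`, the product over the primes of good reduction, has an entire
continuation; its central point is `s = 1`.  Let `m` be the order and `l = lim F(s) / (s - 1) ^ m` the
leading coefficient of `F` at `s = 1`, that is of `L(H^(2j+1)(X), s)` at its central point `j + 1`.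
Let `T(x)` be the sum of `-Tr(Frob_p^k | H^(2j+1)(X)) / (k p^(k (j + 1)))` over the pairs of a good
prime `p` and a `k ≥ 1` with `p^k ≤ x`; `e ^ (-T(x))` is the Euler product at the central point,
truncated at the prime powers `≤ x`, and one expects `e ^ (-T(x)) (e ^ γ log x) ^ m → |l|`.

No hypothesis on the growth of `F` or on its zeros is made, unless said explicitly.  We prove:

1. the upper limit of `T(x) - m log log x`, and also the upper limit of its logarithmic averages
`LM(x)`, is at least `m γ - log |l|`;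

2. if `F` has no real zero `σ > 1`, then `m γ - log |l|` is a limit point of `T(x) - m log log x` and
of its logarithmic averages; in other words `|l|` is the limit of `e ^ (-T(x)) (e ^ γ log x) ^ m` along
a sequence of `x` tending to infinity;

3. if `T(x) - m log log x` is bounded above (or if it is bounded below and `F` has no real zero
`σ > 1`), then `F` has no zeros with `Re s > 1` and the logarithmic averages of `T(x) - m log log x`
converge to `m γ - log |l|`.
-/

set_option autoImplicit false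

open Filter Topology

namespace Pool.Agent.Results.MP_29b22a_nt.LeadingLimitPoints

open Pool.Agent.H438R3.BSD.Gen (IsLH)
open Pool.Agent.H230R4.BSD (LM)
open Pool.Agent.H230R4.BSD.TCn (T)

/-- See the introduction. -/
theorem result (f : Polynomial ℤ) (hd : 1 ≤ f.natDegree) (n j : ℕ) (F : ℂ → ℂ)
    (hF : IsLH f n j F) :
    ∃ (m : ℕ) (l : ℂ), analyticOrderAt F 1 = m ∧ l ≠ 0 ∧
    Tendsto (fun s => F s / (s - 1) ^ m) (𝓝[≠] 1) (𝓝 l) ∧
    (∀ c < m * Real.eulerMascheroniConstant - Real.log ‖l‖,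
      (∃ᶠ x : ℕ in atTop, c < T f n j x - m * Real.log (Real.log x)) ∧
      ∃ᶠ x : ℕ in atTop, c < LM (T f n j) m x) ∧
    ((∀ σ : ℝ, 1 < σ → F σ ≠ 0) →
      (∃ φ : ℕ → ℕ, StrictMono φ ∧
        Tendsto (fun k => (Real.exp Real.eulerMascheroniConstant * Real.log (φ k)) ^ m *
          Real.exp (-T f n j (φ k))) atTop (𝓝 ‖l‖)) ∧
      ∃ φ : ℕ → ℕ, StrictMono φ ∧ Tendsto (fun k => LM (T f n j) m (φ k)) atTop
        (𝓝 (m * Real.eulerMascheroniConstant - Real.log ‖l‖))) ∧
    ((∃ C, ∀ᶠ x : ℕ in atTop, T f n j x - m * Real.log (Real.log x) ≤ C) ∨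
      ((∀ σ : ℝ, 1 < σ → F σ ≠ 0) ∧
        ∃ C, ∀ᶠ x : ℕ in atTop, C ≤ T f n j x - m * Real.log (Real.log x)) →
      (∀ s : ℂ, 1 < s.re → F s ≠ 0) ∧
      Tendsto (LM (T f n j) m) atTop (𝓝 (m * Real.eulerMascheroniConstant - Real.log ‖l‖))) := by
  obtain ⟨m, l, hm, hl, hlim, h1, h2, h3⟩ := Pool.Agent.H230R4.BSD.pointsT
    (Pool.Agent.H230R4.BSD.TCn.tdN f hd n j hF)
    (Pool.Agent.H230R4.BSD.tq_one (Pool.Agent.H230R4.BSD.TCn.pdN f hd n j)) (T f n j)
    (Pool.Agent.H230R4.BSD.TCn.T_eqN f hd n j)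
  refine ⟨m, l, hm, hl, hlim, h1, fun hreal => ?_, h3⟩
  obtain ⟨⟨φ, hφ, h4⟩, h5⟩ := h2 hreal
  exact ⟨⟨φ, hφ, Pool.Agent.H230R4.BSD.mulT hl hφ h4⟩, h5⟩

end Pool.Agent.Results.MP_29b22a_nt.LeadingLimitPoints
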